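import Mathlib
import Pool.Agent.H29.Mon3

namespace Pool.Agent.Results.MP_a342dd_al.Counter

open MvPolynomial

/-- `I^{(n)}`: intersection over all associated primes `p` of `R/I` of `I^n R_p ∩ R`. -/
noncomputable def symPow {R : Type} [CommRing R] (I : Ideal R) (n : ℕ) : Ideal R :=
  ⨅ p : associatedPrimes R (R ⧸ I),
    ((I ^ n).map (algebraMap R (Localization.AtPrime p.1))).comap
      (algebraMap R (Localization.AtPrime p.1))

/-- `sdef_I(n) = dim_k I^{(n)} / (I^n + m I^{(n)})`. -/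
noncomputable def sdef {k : Type} [Field k] {r : ℕ} (I : Ideal (MvPolynomial (Fin r) k))
    (n : ℕ) : ℕ :=
  Module.finrank k (↥(symPow I n) ⧸ Submodule.comap (symPow I n).subtype
    (I ^ n ⊔ Ideal.span (Set.range X) * symPow I n))

/-- The monomial ideal `(x³, x²y, xyz, y²z)`. -/
noncomputable def I (k : Type) [Field k] : Ideal (MvPolynomial (Fin 3) k) :=
  Ideal.span {X 0 ^ 3, X 0 ^ 2 * X 1, X 0 * X 1 * X 2, X 1 ^ 2 * X 2}

open Pool.Agent.H29.Mon3

variable {k : Type} [Field k]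

def U1 (n : ℕ) : Up := ⟨fun a b _ => 2 * n ≤ a + b ∧ 3 * n ≤ a + 2 * b, by intros; omega⟩
def U2 (n : ℕ) : Up := ⟨fun a _ c => 2 * n ≤ a + 2 * c, by intros; omega⟩
def SS (n : ℕ) : Up :=
  ⟨fun a b c => 2 * n ≤ a + b ∧ 3 * n ≤ a + 2 * b ∧ 2 * n ≤ a + 2 * c, by intros; omega⟩
def TT (n : ℕ) : Up :=
  ⟨fun a b c => (2 * n ≤ a + b ∧ 3 * n ≤ a + 2 * b ∧ 2 * n ≤ a + 2 * c) ∧ 3 * n ≤ a + b + c,
    by intros; omega⟩
def VV (n : ℕ) : Up :=
  ⟨fun a b c => (1 ≤ a ∧ 2 * n + 1 ≤ a + b ∧ 3 * n + 1 ≤ a + 2 * b ∧ 2 * n + 1 ≤ a + 2 * c) ∨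
    (1 ≤ b ∧ 2 * n + 1 ≤ a + b ∧ 3 * n + 2 ≤ a + 2 * b ∧ 2 * n ≤ a + 2 * c) ∨
    (1 ≤ c ∧ 2 * n ≤ a + b ∧ 3 * n ≤ a + 2 * b ∧ 2 * n + 2 ≤ a + 2 * c), by intros; omega⟩

theorem I_le : I k ≤ M k (TT 1) := by
  apply Ideal.span_le.2
  rintro _ (rfl | rfl | rfl | rfl)
  · have : (X 0 ^ 3 : MvPolynomial (Fin 3) k) = mo k 3 0 0 := by simp [mo]
    rw [this, SetLike.mem_coe, mo_mem]; simp [TT]
  · have : (X 0 ^ 2 * X 1 : MvPolynomial (Fin 3) k) = mo k 2 1 0 := by simp [mo]
    rw [this, SetLike.mem_coe, mo_mem]; simp [TT]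
  · have : (X 0 * X 1 * X 2 : MvPolynomial (Fin 3) k) = mo k 1 1 1 := by simp [mo]
    rw [this, SetLike.mem_coe, mo_mem]; simp [TT]
  · have : (X 1 ^ 2 * X 2 : MvPolynomial (Fin 3) k) = mo k 0 2 1 := by simp [mo]
    rw [this, SetLike.mem_coe, mo_mem]; simp [TT]

theorem pow_le (n : ℕ) : I k ^ n ≤ M k (TT n) := by
  induction n with
  | zero => intro f _ d _; simp [Up.at, TT]
  | succ n ih =>
    rw [pow_succ, Ideal.mul_le]
    intro f hf g hg
    refine mul_mem_M ?_ (ih hf) (I_le hg)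
    intro a b c a' b' c' h1 h2
    simp only [TT] at h1 h2 ⊢
    omega

theorem mo_pow {n a b c : ℕ} (i j l m : ℕ) (h : i + j + l + m = n) (h0 : 3 * i + 2 * j + l ≤ a)
    (h1 : j + l + 2 * m ≤ b) (h2 : l + m ≤ c) : mo k a b c ∈ I k ^ n := by
  obtain ⟨a', rfl⟩ := Nat.exists_eq_add_of_le h0
  obtain ⟨b', rfl⟩ := Nat.exists_eq_add_of_le h1
  obtain ⟨c', rfl⟩ := Nat.exists_eq_add_of_le h2
  have : mo k (3 * i + 2 * j + l + a') (j + l + 2 * m + b') (l + m + c') =
      mo k a' b' c' * ((X 0 ^ 3) ^ i * (X 0 ^ 2 * X 1) ^ j * (X 0 * X 1 * X 2) ^ l *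
        (X 1 ^ 2 * X 2) ^ m) := by
    unfold mo; ring
  rw [this, ← h, pow_add, pow_add, pow_add]
  refine Ideal.mul_mem_left _ _ (Ideal.mul_mem_mul (Ideal.mul_mem_mul (Ideal.mul_mem_mul
    (Ideal.pow_mem_pow ?_ _) (Ideal.pow_mem_pow ?_ _)) (Ideal.pow_mem_pow ?_ _))
    (Ideal.pow_mem_pow ?_ _)) <;> exact Ideal.subset_span (by simp)

theorem I_eq : I k = M k (SS 1) := by
  apply le_antisymm (I_le.trans (M_le fun a b c h => h.1))
  intro f hf
  refine mem_of_mo _ _ fun d hd => ?_
  have h := hf d hd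
  simp only [Up.at, SS] at h
  rw [← pow_one (I k)]
  by_cases h3 : 3 ≤ d 0
  · exact mo_pow 1 0 0 0 rfl (by omega) (by omega) (by omega)
  by_cases h2 : d 0 = 2
  · exact mo_pow 0 1 0 0 rfl (by omega) (by omega) (by omega)
  by_cases h1 : d 0 = 1
  · exact mo_pow 0 0 1 0 rfl (by omega) (by omega) (by omega)
  · exact mo_pow 0 0 0 1 rfl (by omega) (by omega) (by omega)

theorem z_mul {n : ℕ} {f : MvPolynomial (Fin 3) k} (hf : f ∈ M k (U1 n)) :
    mo k 0 0 n * f ∈ I k ^ n := by
  have : mo k 0 0 n * f ∈ M k ⟨fun a b c => (U1 n).P a b c ∧ n ≤ c,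
      by simp only [U1]; intros; omega⟩ := by
    rw [mul_comm _ f]
    refine mul_mo_mem.2 fun d hd => ?_
    exact ⟨hf d hd, by omega⟩
  refine mem_of_mo _ _ fun d hd => ?_
  have h := this d hd
  simp only [Up.at, U1] at h
  by_cases h1 : d 0 ≤ n
  · exact mo_pow 0 0 (d 0) (n - d 0) (by omega) (by omega) (by omega) (by omega)
  · exact mo_pow (min n ((d 0 - n) / 2)) 0 (n - min n ((d 0 - n) / 2)) 0
      (by omega) (by omega) (by omega) (by omega)

theorem y_mul {n : ℕ} {f : MvPolynomial (Fin 3) k} (hf : f ∈ M k (U2 n)) :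
    mo k 0 (2 * n) 0 * f ∈ I k ^ n := by
  have : mo k 0 (2 * n) 0 * f ∈ M k ⟨fun a b c => (U2 n).P a b c ∧ 2 * n ≤ b,
      by simp only [U2]; intros; omega⟩ := by
    rw [mul_comm _ f]
    refine mul_mo_mem.2 fun d hd => ?_
    exact ⟨hf d hd, by omega⟩
  refine mem_of_mo _ _ fun d hd => ?_
  have h := this d hd
  simp only [Up.at, U2] at h
  exact mo_pow 0 (min n (d 0 / 2)) 0 (n - min n (d 0 / 2))
    (by omega) (by omega) (by omega) (by omega)

theorem mem_colon (r f : MvPolynomial (Fin 3) k) :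
    r ∈ Submodule.colon (⊥ : Submodule (MvPolynomial (Fin 3) k) (MvPolynomial (Fin 3) k ⧸ I k))
      {Ideal.Quotient.mk (I k) f} ↔ r * f ∈ I k := by
  rw [Submodule.mem_colon_singleton, Submodule.mem_bot, ← Ideal.Quotient.eq_zero_iff_mem]
  rfl

theorem ass1 : M k (lin 1 1 0 1) ∈
    associatedPrimes (MvPolynomial (Fin 3) k) (MvPolynomial (Fin 3) k ⧸ I k) := by
  refine isAssociatedPrime_iff.2 ⟨lin_prime _ _ _, Ideal.Quotient.mk _ (mo k 2 0 0), ?_⟩
  ext r
  rw [mem_colon, I_eq, mul_mo_mem, mem_M]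
  refine forall₂_congr fun d _ => ?_
  simp only [Up.at, lin, SS]
  omega

theorem ass2 : M k (lin 1 0 1 1) ∈
    associatedPrimes (MvPolynomial (Fin 3) k) (MvPolynomial (Fin 3) k ⧸ I k) := by
  refine isAssociatedPrime_iff.2 ⟨lin_prime _ _ _, Ideal.Quotient.mk _ (mo k 1 1 0), ?_⟩
  ext r
  rw [mem_colon, I_eq, mul_mo_mem, mem_M]
  refine forall₂_congr fun d _ => ?_
  simp only [Up.at, lin, SS]
  omega

theorem ass_not {p : Ideal (MvPolynomial (Fin 3) k)} (hp : p ∈
    associatedPrimes (MvPolynomial (Fin 3) k) (MvPolynomial (Fin 3) k ⧸ I k)) :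
    mo k 0 0 1 ∉ p ∨ mo k 0 1 0 ∉ p := by
  obtain ⟨h1, x, hx⟩ := isAssociatedPrime_iff.1 hp
  obtain ⟨f, rfl⟩ := Ideal.Quotient.mk_surjective x
  by_contra h
  push Not at h
  apply h1.ne_top
  rw [Ideal.eq_top_iff_one, hx, mem_colon, one_mul, I_eq]
  rw [hx, mem_colon, mem_colon, I_eq, mul_comm, mul_mo_mem, mul_comm, mul_mo_mem] at h
  intro d hd
  have h2 := h.1 d hd
  have h3 := h.2 d hd
  simp only [Up.at, SS] at h2 h3 ⊢
  omega

theorem sym_eq (n : ℕ) : symPow (I k) n = M k (SS n) := by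
  ext f
  simp only [symPow, Ideal.mem_iInf, Ideal.mem_comap]
  constructor
  · intro h
    have h' := fun p => (IsLocalization.algebraMap_mem_map_algebraMap_iff
      (Ideal.primeCompl p.1) _ _ _).1 (h p)
    obtain ⟨s, hs, h1⟩ := h' ⟨_, ass1⟩
    obtain ⟨t, ht, h2⟩ := h' ⟨_, ass2⟩
    have e1 : f ∈ M k (U1 n) := sat (p := 1) (q := 1) (r := 0) (N := 3 * n)
      (by simp only [U1]; intros; omega) (by simp only [U1]; intros; omega) hs
      (M_le (by simp only [U1, TT]; intros; omega) (pow_le n h1))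
    have e2 : f ∈ M k (U2 n) := sat (p := 1) (q := 0) (r := 1) (N := 2 * n)
      (by simp only [U2]; intros; omega) (by simp only [U2]; intros; omega) ht
      (M_le (by simp only [U2, TT]; intros; omega) (pow_le n h2))
    intro d hd
    exact ⟨(e1 d hd).1, (e1 d hd).2, e2 d hd⟩
  · intro h p
    apply (IsLocalization.algebraMap_mem_map_algebraMap_iff (Ideal.primeCompl p.1) _ _ _).2
    rcases ass_not p.2 with h1 | h1
    · refine ⟨mo k 0 0 n, ?_, z_mul (M_le (by simp only [U1, SS]; intros; omega) h)⟩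
      have : mo k 0 0 n = mo k 0 0 1 ^ n := by simp [mo]
      rw [this]
      exact pow_mem (S := p.1.primeCompl) h1 _
    · refine ⟨mo k 0 (2 * n) 0, ?_, y_mul (M_le (by simp only [U2, SS]; intros; omega) h)⟩
      have : mo k 0 (2 * n) 0 = mo k 0 1 0 ^ (2 * n) := by simp [mo]
      rw [this]
      exact pow_mem (S := p.1.primeCompl) h1 _

def AA (n : ℕ) : Finset ℕ := (Finset.range (3 * n)).filter fun a =>
  2 ≤ a ∧ (a ≤ n ∨ (3 * n - a) % 2 = 0 ∨ (a % 2 = 0 ∧ a ≤ 2 * n))

noncomputable def gg (n a : ℕ) : Fin 3 →₀ ℕ :=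
  ex a (max (2 * n - a) ((3 * n - a + 1) / 2)) ((2 * n - a + 1) / 2)

theorem mem_T {n : ℕ} (hn : 2 ≤ n) {f : MvPolynomial (Fin 3) k} (hf : f ∈ M k (SS n)) :
    f ∈ I k ^ n ⊔ Ideal.span (Set.range X) * M k (SS n) ↔ ∀ a ∈ AA n, coeff (gg n a) f = 0 := by
  constructor
  · intro h a ha
    have h1 : I k ^ n ⊔ Ideal.span (Set.range X) * M k (SS n) ≤
        M k ⟨fun a b c => 3 * n ≤ a + b + c ∨ (VV n).P a b c,
          by simp only [VV]; intros; omega⟩ := by
      apply sup_le ((pow_le n).trans (M_le fun a b c h => Or.inl h.2))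
      rw [Ideal.mul_le]
      intro r hr s hs
      have h2 : Ideal.span (Set.range X) ≤ M k (lin 1 1 1 1) := by
        apply Ideal.span_le.2
        rintro _ ⟨i, rfl⟩
        intro d hd
        rw [support_X, Finset.mem_singleton] at hd
        subst hd
        fin_cases i <;> simp [Up.at, lin]
      refine mul_mem_M ?_ (h2 hr) hs
      simp only [lin, SS, VV]
      intros
      omega
    by_contra h0
    have h3 := h1 h _ (mem_support_iff.2 h0)
    simp only [AA, Finset.mem_filter, Finset.mem_range] at ha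
    simp only [Up.at, gg, ex0, ex1, ex2, VV] at h3
    omega
  · intro h
    refine mem_of_mo _ _ fun d hd => ?_
    have h1 := hf d hd
    simp only [Up.at, SS] at h1
    have hX : ∀ i, (X i : MvPolynomial (Fin 3) k) ∈ Ideal.span (Set.range X) :=
      fun i => Ideal.subset_span ⟨i, rfl⟩
    by_cases hV : (VV n).P (d 0) (d 1) (d 2)
    · apply Ideal.mem_sup_right
      rcases hV with hV | hV | hV
      · obtain ⟨a, ha⟩ := Nat.exists_eq_add_of_le hV.1
        have : mo k (d 0) (d 1) (d 2) = X 0 * mo k a (d 1) (d 2) := by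
          rw [ha]; unfold mo; ring
        rw [this]
        exact Ideal.mul_mem_mul (hX 0) (mo_mem.2 (by simp only [SS]; omega))
      · obtain ⟨a, ha⟩ := Nat.exists_eq_add_of_le hV.1
        have : mo k (d 0) (d 1) (d 2) = X 1 * mo k (d 0) a (d 2) := by
          rw [ha]; unfold mo; ring
        rw [this]
        exact Ideal.mul_mem_mul (hX 1) (mo_mem.2 (by simp only [SS]; omega))
      · obtain ⟨a, ha⟩ := Nat.exists_eq_add_of_le hV.1
        have : mo k (d 0) (d 1) (d 2) = X 2 * mo k (d 0) (d 1) a := by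
          rw [ha]; unfold mo; ring
        rw [this]
        exact Ideal.mul_mem_mul (hX 2) (mo_mem.2 (by simp only [SS]; omega))
    · apply Ideal.mem_sup_left
      simp only [VV] at hV
      have h2 : d 0 ∉ AA n := by
        intro ha
        have h3 : gg n (d 0) = d := by
          rw [ex_eq d]
          simp only [gg, ex0]
          congr 1 <;> omega
        have := h _ ha
        rw [h3] at this
        exact mem_support_iff.1 hd this
      simp only [AA, Finset.mem_filter, Finset.mem_range] at h2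
      by_cases h0 : d 0 = 0
      · exact mo_pow 0 0 0 n (by omega) (by omega) (by omega) (by omega)
      by_cases h4 : d 0 = 1
      · exact mo_pow 0 0 1 (n - 1) (by omega) (by omega) (by omega) (by omega)
      · exact mo_pow n 0 0 0 (by omega) (by omega) (by omega) (by omega)

theorem sdef_aux {n : ℕ} (hn : 2 ≤ n) (J : Ideal (MvPolynomial (Fin 3) k))
    (hJ : J = M k (SS n)) : Module.finrank k (↥J ⧸ Submodule.comap J.subtype
      (I k ^ n ⊔ Ideal.span (Set.range X) * J)) = (AA n).card := by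
  subst hJ
  let φ : ↥(M k (SS n)) →ₗ[k] (↥(AA n) → k) :=
    { toFun := fun f a => coeff (gg n a) f.1
      map_add' := fun f g => by funext a; simp
      map_smul' := fun c f => by funext a; simp }
  have hs : Function.Surjective φ := by
    intro v
    classical
    refine ⟨⟨∑ a : ↥(AA n), monomial (gg n a) (v a), ?_⟩, ?_⟩
    · refine Ideal.sum_mem _ fun a _ d hd => ?_
      have := support_monomial_subset hd
      rw [Finset.mem_singleton] at this
      subst this
      simp only [Up.at, gg, ex0, ex1, ex2, SS]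
      omega
    · funext b
      change coeff (gg n b) (∑ a : ↥(AA n), monomial (gg n a) (v a)) = v b
      rw [coeff_sum, Finset.sum_eq_single b]
      · simp
      · intro a _ hab
        rw [coeff_monomial, if_neg]
        intro h
        exact hab (Subtype.ext (congrArg (fun d => d 0) h))
      · simp
  have hk : LinearMap.ker φ = (Submodule.comap (M k (SS n)).subtype
      (I k ^ n ⊔ Ideal.span (Set.range X) * M k (SS n))).restrictScalars k := by
    ext f
    rw [LinearMap.mem_ker, Submodule.restrictScalars_mem, Submodule.mem_comap]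
    refine Iff.trans ?_ (mem_T hn f.2).symm
    constructor
    · intro h a ha
      exact congrFun h ⟨a, ha⟩
    · intro h
      funext a
      exact h a a.2
  rw [← (Submodule.Quotient.restrictScalarsEquiv k _).finrank_eq, ← hk,
    (φ.quotKerEquivOfSurjective hs).finrank_eq]
  simp

theorem sdef_eq {n : ℕ} (hn : 2 ≤ n) : sdef (I k) n = (AA n).card :=
  sdef_aux hn _ (sym_eq n)

theorem card_even (m : ℕ) (hm : 1 ≤ m) : (AA (2 * m)).card = 4 * m - 2 := by
  have : AA (2 * m) = Finset.Icc 2 (2 * m) ∪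
      (Finset.range (2 * m - 1)).image (fun j => 2 * m + 2 + 2 * j) := by
    ext a
    simp only [AA, Finset.mem_filter, Finset.mem_range, Finset.mem_union, Finset.mem_Icc,
      Finset.mem_image]
    constructor
    · intro h
      by_cases h1 : a ≤ 2 * m
      · left; omega
      · right; exact ⟨(a - (2 * m + 2)) / 2, by omega, by omega⟩
    · rintro (h | ⟨j, h1, h2⟩) <;> omega
  rw [this, Finset.card_union_of_disjoint, Finset.card_image_of_injective]
  · simp; omega
  · intro x y h; simp only at h; omega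
  · rw [Finset.disjoint_left]
    intro a h1 h2
    simp only [Finset.mem_Icc, Finset.mem_image] at h1 h2
    omega

theorem card_odd (m : ℕ) : (AA (2 * m + 1)).card = 5 * m + 1 := by
  have : AA (2 * m + 1) = Finset.Icc 2 (4 * m + 2) ∪
      (Finset.range m).image (fun j => 4 * m + 3 + 2 * j) := by
    ext a
    simp only [AA, Finset.mem_filter, Finset.mem_range, Finset.mem_union, Finset.mem_Icc,
      Finset.mem_image]
    constructor
    · intro h
      by_cases h1 : a ≤ 4 * m + 2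
      · left; omega
      · right; exact ⟨(a - (4 * m + 3)) / 2, by omega, by omega⟩
    · rintro (h | ⟨j, h1, h2⟩) <;> omega
  rw [this, Finset.card_union_of_disjoint, Finset.card_image_of_injective]
  · simp; omega
  · intro x y h; simp only at h; omega
  · rw [Finset.disjoint_left]
    intro a h1 h2
    simp only [Finset.mem_Icc, Finset.mem_image] at h1 h2
    omega

theorem result (k : Type) [Field k] (n : ℕ) (hn : 2 ≤ n) :
    (Even n → (sdef (I k) n : ℚ) = 2 * n - 2) ∧
    (Odd n → (sdef (I k) n : ℚ) = 5 / 2 * n - 3 / 2) := by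
  rw [sdef_eq hn]
  constructor
  · rintro ⟨m, rfl⟩
    rw [← two_mul, card_even m (by omega), Nat.cast_sub (by omega)]
    push_cast; ring
  · rintro ⟨m, rfl⟩
    rw [card_odd m]
    push_cast; ring

end Pool.Agent.Results.MP_a342dd_al.Counter
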